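import Pool.Agent.N172.CW.Des5

/-!
# Descent of parameters from a finite extension
-/

set_option autoImplicit false

namespace Pool.Agent.Results.MP_666dc0_nt.DescentFromExtension

open NumberField Complex Filter Topology IsDedekindDomain
open Pool.Agent.N172.HS (WRep)
open Pool.Agent.N172.CW
open scoped ComplexConjugate

/-- Let `L/K` be an arbitrary finite extension of number fields, of degree `g`.
(1) Let the pairwise inequivalent cuspidal representations `π_i` over `K` match the representations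
`ρ_i` of the Weil group of `L`, at the primes of `L` of degree one above the primes of `K` outside
`E`, and let the upper density of `E` be at most `δ`. Then
`∑ c_i c_j ⟨ρ_i, ρ_j⟩ ≤ g (∑ c_i ^ 2 + δ (∑ |c_i| d_i) ^ 2)`.
(2) Let the cuspidal representation `π` over `K` match the representation `ρ` of the Weil group of
`L`, and let `τ_k` be the irreducible constituents of the induced representation `Ind ρ`, with the
multiplicities `m_k`. Then `∑ m_k log |L(s, π × τ_k)|` is at least `c log 1/(s-1)` for `s` near `1`, and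
if the `L(s, π × τ_k)` have orders at `s = 1`, then exactly one of them is not zero, and `π` matches the
dual of `τ_k` at a set of primes of density one.
(3) The case `L = K`, `ρ` irreducible: strong multiplicity one with the constant `1 / (2 d ^ 2)`. -/
theorem result (K L : Type) [Field K] [NumberField K] [Field L] [NumberField L] [Algebra K L] :
    (∀ (p : ℕ) (π : Fin p → Params K) (ρ : Fin p → WRep L) (d : Fin p → ℝ)
      (E : Set (HeightOneSpectrum (𝓞 K))) (δ : ℝ), (∀ i, (π i).IsCuspidal) →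
      (∀ i j, i ≠ j → HasOrd (RS (π i) (π j)) 1 0) → (∀ i, 0 ≤ d i) →
      (∀ i w, ‖(ρ i).trace w‖ ≤ d i) → DensLE E δ → (∀ i, Matches (π i) (ρ i) E) →
      ∀ c : Fin p → ℝ, ∑ i, ∑ j, c i * c j * ((ρ i).inner (ρ j) : ℝ) ≤
        Module.finrank K L * (∑ i, c i ^ 2 + (∑ i, |c i| * d i) ^ 2 * δ)) ∧
    (∀ (π : Params K) (ρ : WRep L) (d : ℝ) (E : Set (HeightOneSpectrum (𝓞 K))) (δ : ℝ),
      π.IsCuspidal → 0 ≤ d → (∀ w, ‖ρ.trace w‖ ≤ d) → 0 ≤ δ → DensLE E δ → Matches π ρ E →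
      ∀ (q : ℕ) (τ : Fin q → WRep K), (∀ k, (τ k).IsIrr) →
      (∀ k l, k ≠ l → (τ k).inner (τ l) = 0) →
      (Ind K ρ).inner (Ind K ρ) = ∑ k, (Ind K ρ).inner (τ k) ^ 2 →
      (∀ c < gain ((Ind K ρ).inner (Ind K ρ)) ((Module.finrank K L * d) ^ 2 * δ)
          (Module.finrank K L), ∀ᶠ ε : ℝ in 𝓝[>] 0, c * Real.log (1 / ε) ≤
        ∑ k, ((Ind K ρ).inner (τ k) : ℝ) * Real.log ‖LW π (τ k) (1 + (ε : ℂ))‖) ∧
      (0 < gain ((Ind K ρ).inner (Ind K ρ)) ((Module.finrank K L * d) ^ 2 * δ)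
          (Module.finrank K L) →
        ∀ r : Fin q → ℤ, (∀ k, HasOrd (LW π (τ k)) 1 (r k)) →
        ∃ k, (r k = 1 ∨ r k = -1) ∧
          gain ((Ind K ρ).inner (Ind K ρ)) ((Module.finrank K L * d) ^ 2 * δ)
            (Module.finrank K L) ≤ -((Ind K ρ).inner (τ k) * r k : ℤ) ∧
          (∀ l, l ≠ k → r l = 0) ∧
          ∀ η : ℝ, 0 < η →
            DensZero {v | η ≤ ‖∑ j, π.α v j + r k * conj ((τ k).trace v)‖})) ∧
    (∀ (π : Params K) (ρ : WRep K) (d : ℝ) (E : Set (HeightOneSpectrum (𝓞 K))) (δ : ℝ),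
      π.IsCuspidal → ρ.IsIrr → (∀ v, ‖ρ.trace v‖ ≤ d) → 0 ≤ δ → DensLE E δ →
      (∀ v, v ∉ E → ∑ j, π.α v j = conj (ρ.trace v)) →
      (∀ c < 1 - 2 * d ^ 2 * δ, ∀ᶠ ε : ℝ in 𝓝[>] 0,
        c * Real.log (1 / ε) ≤ Real.log ‖LW π ρ (1 + (ε : ℂ))‖) ∧
      (2 * d ^ 2 * δ < 1 → ∀ r : ℤ, HasOrd (LW π ρ) 1 r →
        r = -1 ∧ ∀ η : ℝ, 0 < η →
          DensZero {v | η ≤ ‖∑ j, π.α v j - conj (ρ.trace v)‖})) := by
  refine ⟨fun p π ρ d E δ h hne hd0 hd hE hM c => restr_norm π h hne ρ hd0 hd hE hM c,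
    fun π ρ d E δ h hd0 hd hδ hE hM q τ hτ hor hdec => ⟨fun c hc => ?_, fun hc r hr => ?_⟩,
    fun π ρ d E δ h hρ hd hδ hE hM => ⟨fun c hc => ?_, fun hc r hr => ?_⟩⟩
  · have h1 := descent h ρ hd hd0 hδ hE hM τ hτ hor hdec hc
    simp only [LWr_eq] at h1
    exact h1
  · exact descent_ord h ρ hd hd0 hδ hE hM τ hτ hor hdec hc r hr
  · have h1 := smo h ρ hρ hd hδ hE hM hc
    simp only [LWr_eq] at h1
    exact h1
  · exact smo_ord h ρ hρ hd hδ hE hM hc hr

end Pool.Agent.Results.MP_666dc0_nt.DescentFromExtension
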