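import Pool.Agent.N172.CW.Fu7

/-!
# Weak base change and weak automorphic induction along arbitrary extensions
-/

set_option autoImplicit false

namespace Pool.Agent.Results.MP_666dc0_nt.NonsolvableBaseChange

open NumberField Complex Filter Topology IsDedekindDomain
open Pool.Agent.N172.CW

/-- Let `L/K` be an arbitrary finite extension of number fields, of degree `g`, let `π_i` be pairwise
inequivalent cuspidal representations over `K` and `σ_k` pairwise inequivalent cuspidal representations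
over `L`, and let `E` be a finite set of primes of `K`.
(1) The matrix of the orders of `L(s, π_i × π_j~ × Ind_L^K 1)` at `s = 1` lies between `-g` and `0`.
(2) Let `∑ n_{ik} σ_k` be the base change of `π_i` outside `E`. Then the order of
`L(s, π_i × π_j~ × Ind_L^K 1)` is `-∑ n_{ik} n_{jk}`, and the matrix `(n_{ik})` has norm at most `g^{1/2}`.
Let `P` be the formal automorphic induction of `σ_k`, and let `L(s, P × P~)` have a pole of order `M` at
`s = 1`. Then `∑_i n_{ik} ^ 2 ≤ M`, and in the case of equality `P` is automorphic: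
`tr P = ∑ n_{ik} tr π_i + o(1)` outside a set of primes of density zero.
(3) Let `∑ m_{ki} π_i` be the automorphic induction of `σ_k` outside `E`. Then the matrix `(m_{ki})` has
norm at most `g^{1/2}`.
(4) Frobenius reciprocity: `n_{ik} = m_{ki}`. -/
theorem result (K L : Type) [Field K] [NumberField K] [Field L] [NumberField L] [Algebra K L]
    (p q : ℕ) (π : Fin p → Params K) (σ : Fin q → Params L)
    (hπ : ∀ i, (π i).IsCuspidal) (hσ : ∀ k, (σ k).IsCuspidal)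
    (hπ1 : ∀ i v j, ‖(π i).α v j‖ ^ 2 < Ideal.absNorm v.asIdeal)
    (hσ1 : ∀ k w j, ‖(σ k).α w j‖ ^ 2 < Ideal.absNorm w.asIdeal)
    (hπ2 : ∀ i j, i ≠ j → HasOrd (RS (π i) (π j)) 1 0)
    (hσ2 : ∀ k l, k ≠ l → HasOrd (RS (σ k) (σ l)) 1 0)
    (E : Set (HeightOneSpectrum (𝓞 K))) (hE : E.Finite) :
    (∀ r : Fin p → Fin p → ℤ, (∀ i j, HasOrd (RSL L (π i) (π j)) 1 (r i j)) →
      ∀ c : Fin p → ℝ, 0 ≤ -∑ i, ∑ j, c i * c j * r i j ∧
        -∑ i, ∑ j, c i * c j * r i j ≤ Module.finrank K L * ∑ i, c i ^ 2) ∧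
    (∀ n : Fin p → Fin q → ℝ, (∀ i, BC E (π i) σ (n i)) →
      (∀ i j, Tendsto (fun ε : ℝ =>
        Real.log ‖RSL L (π i) (π j) (1 + (ε : ℂ))‖ / Real.log (1 / ε)) (𝓝[>] 0)
          (𝓝 (∑ k, n i k * n j k)) ∧
        ∀ r : ℤ, HasOrd (RSL L (π i) (π j)) 1 r → (r : ℝ) = -∑ k, n i k * n j k) ∧
      (∀ c : Fin p → ℝ, ∑ k, (∑ i, c i * n i k) ^ 2 ≤ Module.finrank K L * ∑ i, c i ^ 2) ∧
      ∀ (k : Fin q) (P : Params K) (M : ℤ), P.IsConv → HasOrd (RS P P) 1 (-M) →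
        AI E (σ k) (fun _ : Unit => P) (fun _ => 1) →
        ∑ i, n i k ^ 2 ≤ M ∧ (∑ i, n i k ^ 2 = M → ∀ η : ℝ, 0 < η →
          DensZero {v | η ≤ ‖∑ i, (n i k : ℂ) * ∑ j, (π i).α v j - ∑ j, P.α v j‖})) ∧
    (∀ m : Fin q → Fin p → ℝ, (∀ k, AI E (σ k) π (m k)) →
      ∀ c : Fin q → ℝ, ∑ i, (∑ k, c k * m k i) ^ 2 ≤ Module.finrank K L * ∑ k, c k ^ 2) ∧
    (∀ i k (n : Fin q → ℝ) (m : Fin p → ℝ), BC E (π i) σ n → AI E (σ k) π m → n k = m i) := by
  refine ⟨fun r hr c => rsl_matrix hE π hπ hπ1 hπ2 r hr c,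
    fun n hn => ⟨fun i j => rsl_final hE π hπ hπ1 hπ2 σ hσ hσ1 hσ2 n hn i j,
      fun c => bcn hE π hπ hπ1 hπ2 σ hσ hσ1 hσ2 n hn c,
      fun k P M hP hM hAI => ind_final hE π hπ hπ1 hπ2 σ hσ hσ1 hσ2 n hn k hP hM hAI⟩,
    fun m hm c => ain hE π hπ hπ1 hπ2 σ hσ hσ1 hσ2 m hm c,
    fun i k n m hn hm => rcp hE π hπ hπ1 hπ2 σ hσ hσ1 hσ2 i k hn hm⟩

end Pool.Agent.Results.MP_666dc0_nt.NonsolvableBaseChange
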