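import Pool.Agent.N210.WZ.Main

/-!
# Galois representations of weight zero: one prime `ℓ`, or infinitely many residual representations,
give all `ℓ` and all embeddings

The problem asks, for an L-algebraic automorphic representation `Π`, for a number field `E` of definition
of the Satake parameters and, for every prime `ℓ` and every embedding `E → ℚ̄_ℓ`, for an attached Galois
representation.  We consider `G = GL_n` over `ℚ` and `Π` of weight zero (infinitesimal character `0` at
infinity, for instance Maass forms of eigenvalue `1/4` and forms of weight one for `n = 2`), where no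
geometric construction is available and the Galois representations should have finite image.

Data: a number field `K`, a finite set `B` of primes, and for the primes `p` outside `B` the Satake
polynomials `f p`, with coefficients in the ring of integers of `K`.  The only analytic input is the
Rankin-Selberg bound: for every embedding `σ : K → ℂ` the mean square of `σ(a_p)`, `p ≤ x`, is bounded
(`MeanSquareBounded`); nothing is assumed about the size of the Satake parameters (Ramanujan conjecture).

Theorem.  Suppose that ONE of the following is given:

* (`OneEllAdic`) for one `ℓ` and one embedding `φ` of `K` in an ultrametric field of characteristic `0`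
  (`ℚ̄_ℓ`), a continuous semisimple `n`-dimensional representation attached to the `f p`, `p` outside `B`;
* (`ManyModEll`) for infinitely many `ℓ`, a semisimple `n`-dimensional representation modulo `ℓ` attached
  to the `f p`, `p` outside `B`, `p ≠ ℓ`.

Then

1. there are a finite extension `L` of `K` and ONE representation of the Galois group over `L` with
   finite image, attached to the `f p` for all `p` outside `B`;
2. for every algebraically closed field `Ω` and EVERY embedding of `K` in `Ω` (in particular for all `ℓ`
   and all `ι : K → ℚ̄_ℓ`) there is a representation over `Ω` with finite image attached to the `f p`;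
   it is semisimple (by Maschke's theorem);
3. the Ramanujan conjecture holds in the strong form: there is an `m > 0` such that all Satake
   parameters at all `p` outside `B`, under all embeddings of `K`, are `m`-th roots of unity.

`GF ℚ` is the absolute Galois group of `ℚ`; `Att ρ p f` means: `ρ` is trivial on the inertia groups at `p`
and the inverses of all Frobenius elements at `p` have characteristic polynomial `f`.
-/

set_option autoImplicit false

namespace Pool.Agent.Results.MP_666dc0_nt.WeightZero

open NumberField Matrix Polynomial Pool.Agent.W569.FM Pool.Agent.R401.RS Pool.Agent.R401.Img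
  Pool.Agent.R401.DS Pool.Agent.N210.WZ

section Definitions

variable (K : Type) [Field K] (B : Set ℕ) (n : ℕ) (f : ℕ → (𝓞 K)[X])

/-- for every embedding of `K` in `ℂ` the mean square of the coefficients of `X^(n-1)` of the Satake
polynomials over the primes `p ≤ x` outside `B` is bounded -/
def MeanSquareBounded : Prop :=
  ∀ σ : K →+* ℂ, ∃ C : ℝ, ∀ x : ℕ,
    ∑ᶠ p ∈ primesUpTo B x, ‖σ ((f p).coeff (n - 1))‖ ^ 2 ≤ C * Nat.primeCounting x

/-- one continuous semisimple representation over an ultrametric field of characteristic zero is
attached to the Satake polynomials -/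
def OneEllAdic : Prop :=
  ∃ (Ω : Type) (_ : NormedField Ω) (_ : IsUltrametricDist Ω) (_ : CharZero Ω) (φ : K →+* Ω)
    (ρ : GF ℚ →* GL (Fin n) Ω), Continuous ρ ∧ SS ρ ∧
      Attached ρ B (fun p => (f p).map (φ.comp (algebraMap (𝓞 K) K)))

/-- for infinitely many `ℓ` a semisimple representation modulo `ℓ` is attached to the Satake
polynomials -/
def ManyModEll : Prop :=
  ∀ N : ℕ, ∃ ℓ, N < ℓ ∧ ℓ.Prime ∧ ∃ (k : Type) (_ : Field k) (_ : CharP k ℓ) (φ : 𝓞 K →+* k)
    (ρ : GF ℚ →* GL (Fin n) k), IsOpen (ρ.ker : Set (GF ℚ)) ∧ SS ρ ∧
      ∀ p, p.Prime → p ∉ B → p ≠ ℓ → Att ρ p ((f p).map φ)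

/-- one representation with finite image over a finite extension of `K` is attached to the Satake
polynomials -/
def OneArtin : Prop :=
  ∃ (L : Type) (_ : Field L) (_ : Algebra K L), FiniteDimensional K L ∧
    ∃ R : GF ℚ →* GL (Fin n) L, IsOpen (R.ker : Set (GF ℚ)) ∧
      Attached R B (fun p => (f p).map ((algebraMap K L).comp (algebraMap (𝓞 K) K)))

/-- for all algebraically closed fields and all embeddings of `K` a representation with finite image is
attached to the Satake polynomials -/
def AllEmbeddings : Prop :=
  ∀ (Ω : Type) [Field Ω] [IsAlgClosed Ω] (ι : K →+* Ω),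
    ∃ ρ : GF ℚ →* GL (Fin n) Ω, IsOpen (ρ.ker : Set (GF ℚ)) ∧
      Attached ρ B (fun p => (f p).map (ι.comp (algebraMap (𝓞 K) K)))

/-- all Satake parameters are roots of unity of bounded order, under all embeddings of `K` -/
def RootsOfUnity : Prop :=
  ∃ m : ℕ, 0 < m ∧ ∀ p, p.Prime → p ∉ B → ∀ (σ : K →+* ℂ) (z : ℂ),
    ((f p).map (σ.comp (algebraMap (𝓞 K) K))).IsRoot z → z ^ m = 1

end Definitions

/-- **Weight zero.** -/
theorem result (K : Type) [Field K] [NumberField K] (n : ℕ) (hn : 0 < n) (B : Set ℕ)
    (hB : B.Finite) (f : ℕ → (𝓞 K)[X]) (hf : MeanSquareBounded K B n f)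
    (h : OneEllAdic K B n f ∨ ManyModEll K B n f) :
    OneArtin K B n f ∧ AllEmbeddings K B n f ∧ RootsOfUnity K B f := by
  have h1 : OneArtin K B n f := by
    rcases h with ⟨Ω, _, _, _, φ, ρ, hρ, hss, hatt⟩ | h
    · exact of_one hn hB f hf φ ρ hρ hss hatt
    · exact Pool.Agent.R401.DS.main hn hB f hf h
  refine ⟨h1, ?_, ?_⟩
  · obtain ⟨L, _, _, _, R, hR, hatt⟩ := h1
    intro Ω _ _ ι
    haveI : Algebra.IsAlgebraic K L := Algebra.IsAlgebraic.of_finite K L
    exact transfer f R hR hatt ι
  · obtain ⟨L, _, _, _, R, hR, hatt⟩ := h1
    haveI : Algebra.IsAlgebraic K L := Algebra.IsAlgebraic.of_finite K L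
    exact roots f R hR hatt

end Pool.Agent.Results.MP_666dc0_nt.WeightZero
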